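import Pool.Agent.Results.MP_d74fca_nt.TraceSigns
import Pool.Agent.V11326.WW
import Pool.Agent.V11153.NearW

/-!
# Primes with a given Frobenius trace for ALL quadratic twists near the powers of almost every number, for all curves

For a curve `y² = x³ + A x + B` let `piT A B t K` be the number of the good primes `p ≤ K` (not dividing
`2 (4 A³ + 27 B²)`) with trace of Frobenius `t`. Let `ν m / log m → ∞`, for example `ν m = m`. For almost every real `x > 1`,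
for ALL curves at once, all but finitely many quadratic twists `y² = x³ + A D² x + B D³`, `D ≠ 0` of either sign, with
`| |D| - x ^ (ν m) | ≤ x ^ (θ ν m)` for some `m` have the following property, if `θ < c`: for all `K` with
`(log |D|) ^ C ≤ K ≤ |D| ^ c` and all `t ≠ 0` the number for the twist is the mean of the numbers for the curve itself at
`t` and `-t`, up to `√M K ^ ε`, where `M` is the number of the primes up to `K` with trace `t` or `-t`.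
-/

set_option autoImplicit false

namespace Pool.Agent.Results.MP_d74fca_nt.TracesNearPowers

open Pool.Agent.W406.TW
open Pool.Agent.V11001.KM (Fast Near)

/-- The integers `D ≠ 0` for which, for some `K` with `(log |D|) ^ C ≤ K ≤ |D| ^ c` and some `t ≠ 0`, the number of the
primes up to `K` with trace `t` for the twist `y² = x³ + A D² x + B D³` differs from `M / 2` by more than `√M K ^ ε`, where
`M` is the number of the primes up to `K` at which `y² = x³ + A x + B` has trace `t` or `-t`. -/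
def Bad (A B : ℤ) (C c ε : ℝ) : Set ℤ :=
  {D : ℤ | D ≠ 0 ∧ ∃ K : ℕ, (Real.log |(D : ℝ)|) ^ C ≤ K ∧ (K : ℝ) ≤ |(D : ℝ)| ^ c ∧
    ∃ t : ℤ, t ≠ 0 ∧ √((piT A B t K : ℝ) + piT A B (-t) K) * (K : ℝ) ^ ε <
      |(piT (A * D ^ 2) (B * D ^ 3) t K : ℝ) - (piT A B t K + piT A B (-t) K) / 2|}

/-- **Theorem.** For every `ε > 0` there are `C > 0` and `0 < c ≤ 1 / 2` with the following property. Let
`ν m / log m → ∞`, for example `ν m = m`, and let `U` be a countable set of real numbers. (1) For `θ < 1` there is a set `E`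
of Hausdorff dimension at most `(1 - c) / (1 - θ)` such that for all `x > 1` outside of `E`, all `y > 0` in `U` and ALL
integers `A`, `B` only finitely many `D ∈ Bad A B C c ε` satisfy `| |D| - y x ^ (ν m) | ≤ x ^ (θ ν m)` for some `m`.
(2) For almost every `x > 1` this holds for all `θ < c`, all `y > 0` in `U` and ALL integers `A`, `B`. -/
theorem result (ε : ℝ) (hε : 0 < ε) :
    ∃ C c : ℝ, 0 < C ∧ 0 < c ∧ c ≤ 1 / 2 ∧ ∀ ν : ℕ → ℝ, Fast ν → ∀ U : Set ℝ, U.Countable →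
      (∀ θ : ℝ, θ < 1 → ∃ E : Set ℝ, dimH E ≤ ENNReal.ofReal ((1 - c) / (1 - θ)) ∧
        ∀ x : ℝ, 1 < x → x ∉ E → ∀ y ∈ U, 0 < y → ∀ A B : ℤ,
          {D : ℤ | D ∈ Bad A B C c ε ∧ Near ν θ y x |(D : ℝ)|}.Finite) ∧
      (∀ᵐ x : ℝ, 1 < x → ∀ θ : ℝ, θ < c → ∀ y ∈ U, 0 < y → ∀ A B : ℤ,
        {D : ℤ | D ∈ Bad A B C c ε ∧ Near ν θ y x |(D : ℝ)|}.Finite) := by
  obtain ⟨C, c, hC, hc, N₀, hN⟩ := Pool.Agent.Results.MP_d74fca_nt.TraceSigns.result ε hε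
  refine ⟨C + 1, min c (1 / 2), by linarith, lt_min hc (by norm_num), min_le_right _ _, fun ν hν U hU => ?_⟩
  obtain ⟨M, hM⟩ := Pool.Agent.V11326.WW.twist_count hC hc N₀
  have hsub : ∀ A B : ℤ, Bad A B (C + 1) (min c (1 / 2)) ε ⊆
      {D : ℤ | D ≠ 0 ∧ ∃ K : ℕ, (Real.log |(D : ℝ)|) ^ (C + 1) ≤ K ∧ (K : ℝ) ≤ |(D : ℝ)| ^ c ∧
        ∃ t : ℤ, t ≠ 0 ∧ √((piT A B t K : ℝ) + piT A B (-t) K) * (K : ℝ) ^ ε <
          |(piT (A * D ^ 2) (B * D ^ 3) t K : ℝ) - (piT A B t K + piT A B (-t) K) / 2|} := by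
    rintro A B D ⟨hD0, K, h1, h2, h3⟩
    refine ⟨hD0, K, h1, h2.trans (Real.rpow_le_rpow_of_exponent_le ?_ (min_le_left _ _)), h3⟩
    have h1 : 1 ≤ |D| := Int.one_le_abs hD0
    exact_mod_cast h1
  obtain ⟨g1, g2⟩ := Pool.Agent.V11153.NearW.near (ι := ℤ × ℤ) (fun D : ℤ => |(D : ℝ)|)
    (fun i => {D : ℤ | D ≠ 0 ∧ ∃ K : ℕ, (Real.log |(D : ℝ)|) ^ (C + 1) ≤ K ∧ (K : ℝ) ≤ |(D : ℝ)| ^ c ∧
      ∃ t : ℤ, t ≠ 0 ∧ √((piT i.1 i.2 t K : ℝ) + piT i.1 i.2 (-t) K) * (K : ℝ) ^ ε <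
          |(piT (i.1 * D ^ 2) (i.2 * D ^ 3) t K : ℝ) - (piT i.1 i.2 t K + piT i.1 i.2 (-t) K) / 2|})
    (s := 1 - min c (1 / 2)) (by linarith [min_le_right c (1 / 2)])
    (fun i => ⟨M, hM (fun D K => ∃ t : ℤ, t ≠ 0 ∧ √((piT i.1 i.2 t K : ℝ) + piT i.1 i.2 (-t) K) * (K : ℝ) ^ ε <
          |(piT (i.1 * D ^ 2) (i.2 * D ^ 3) t K : ℝ) - (piT i.1 i.2 t K + piT i.1 i.2 (-t) K) / 2|)
      (fun N hN' => hN N hN' i.1 i.2)⟩) hν U hU
  refine ⟨fun θ hθ => ?_, ?_⟩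
  · obtain ⟨E, hE1, hE2⟩ := g1 θ hθ
    refine ⟨E, hE1, fun x hx hxE y hy hy0 A B => (hE2 x hx hxE y hy hy0 (A, B)).subset ?_⟩
    rintro D ⟨h1, h2⟩
    exact ⟨hsub A B h1, h2⟩
  · filter_upwards [g2] with x hx hx1 θ hθ y hy hy0 A B
    refine (hx hx1 θ (by linarith) y hy hy0 (A, B)).subset ?_
    rintro D ⟨h1, h2⟩
    exact ⟨hsub A B h1, h2⟩

end Pool.Agent.Results.MP_d74fca_nt.TracesNearPowers
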