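import Pool.Agent.Results.MP_d74fca_nt.TraceSigns
import Pool.Agent.V11326.WW

/-!
# Primes with a given Frobenius trace for ALL quadratic twists in windows around a thin sequence, for all curves

For a curve `y² = x³ + A x + B` let `piT A B t x` be the number of the good primes `p ≤ x` (not dividing
`2 (4 A³ + 27 B²)`) with trace of Frobenius `t`. Let `v ≥ 1` be a sequence with exponent of convergence at most `τ` (for
`v_n = b ^ n` it is `0`, for `v_n = n ^ a` it is `1 / a`) and `θ < 1`. For all `α > 0` outside ONE set of Hausdorff dimension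
at most `(1 - c + τ) / (1 - θ)`, for ALL curves and all but finitely many `n`: for ALL quadratic twists
`y² = x³ + A D² x + B D³` with `| |D| - α v_n | ≤ v_n ^ θ`, all `x` with `(log |D|) ^ C ≤ x ≤ |D| ^ c` and all `t ≠ 0` the
number for the twist is the mean of the numbers for the curve itself at `t` and `-t`, up to `√m x ^ ε`, where `m` is the
number of the primes with trace `t` or `-t`.
-/

set_option autoImplicit false

namespace Pool.Agent.Results.MP_d74fca_nt.TracesOfAllTwistsInWindows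

open Pool.Agent.W406.TW

/-- the exponent of convergence of the sequence `v` is at most `τ` -/
def ExpLe (v : ℕ → ℝ) (τ : ℝ) : Prop := ∀ t : ℝ, τ < t → Summable (fun n : ℕ => (v n) ^ (-t))

/-- **Theorem.** For every `ε > 0` there are `C` and `0 < c ≤ 1 / 2` with the following property. Let `v ≥ 1` be a sequence
with exponent of convergence at most `τ` and `θ < 1`. There is a set `E` of Hausdorff dimension at most
`(1 - c + τ) / (1 - θ)` such that for all `α > 0` outside `E`, ALL integers `A`, `B`, all large `n`, ALL integers `D ≠ 0` with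
`| |D| - α v_n | ≤ v_n ^ θ`, all `x` with `(log |D|) ^ C ≤ x ≤ |D| ^ c` and all `t ≠ 0` the number of the primes up to `x`
with trace `t` for the twist `y² = x³ + A D² x + B D³` is half the number `m` of the primes up to `x` at which
`y² = x³ + A x + B` has trace `t` or `-t`, up to an error of at most `√m x ^ ε`. The sequences `v_n = (n + 1) ^ a` and
`v_n = b ^ n` have exponent of convergence at most `1 / a` and `0`. -/
theorem result :
    (∀ ε : ℝ, 0 < ε → ∃ C c : ℝ, 0 < C ∧ 0 < c ∧ c ≤ 1 / 2 ∧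
      ∀ (v : ℕ → ℝ) (τ θ : ℝ), (∀ n, 1 ≤ v n) → 0 ≤ τ → ExpLe v τ → θ < 1 →
      ∃ E : Set ℝ, dimH E ≤ ENNReal.ofReal ((1 - c + τ) / (1 - θ)) ∧ ∀ α : ℝ, 0 < α → α ∉ E → ∀ A B : ℤ,
        ∃ n₀ : ℕ, ∀ n : ℕ, n₀ ≤ n → ∀ D : ℤ, D ≠ 0 → |(|(D : ℝ)|) - α * v n| ≤ (v n) ^ θ →
          ∀ x : ℕ, (Real.log |(D : ℝ)|) ^ C ≤ x → (x : ℝ) ≤ |(D : ℝ)| ^ c → ∀ t : ℤ, t ≠ 0 →
            |(piT (A * D ^ 2) (B * D ^ 3) t x : ℝ) - (piT A B t x + piT A B (-t) x) / 2| ≤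
              √((piT A B t x : ℝ) + piT A B (-t) x) * (x : ℝ) ^ ε) ∧
    (∀ a : ℝ, 0 < a → ExpLe (fun n : ℕ => ((n : ℝ) + 1) ^ a) (1 / a)) ∧
    (∀ b : ℝ, 1 < b → ExpLe (fun n : ℕ => b ^ n) 0) := by
  refine ⟨?_, fun κ hκ => Pool.Agent.Y854.GM.expLe_pow κ hκ, fun b hb => Pool.Agent.Y854.GM.expLe_geom b hb⟩
  intro ε hε
  obtain ⟨C, c, hC, hc, N₀, hN⟩ := Pool.Agent.Results.MP_d74fca_nt.TraceSigns.result ε hε
  refine ⟨C + 1, min c (1 / 2), by linarith, lt_min hc (by norm_num), min_le_right _ _, fun v τ θ hv hτ hE hθ1 => ?_⟩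
  obtain ⟨M, hM⟩ := Pool.Agent.V11326.WW.twist_count hC hc N₀
  obtain ⟨E, hE1, hE2⟩ := Pool.Agent.V11326.WW.int_windows (ι := ℤ × ℤ)
    (fun i => {D : ℤ | D ≠ 0 ∧ ∃ K : ℕ, (Real.log |(D : ℝ)|) ^ (C + 1) ≤ K ∧ (K : ℝ) ≤ |(D : ℝ)| ^ c ∧
      ∃ t : ℤ, t ≠ 0 ∧ √((piT i.1 i.2 t K : ℝ) + piT i.1 i.2 (-t) K) * (K : ℝ) ^ ε <
          |(piT (i.1 * D ^ 2) (i.2 * D ^ 3) t K : ℝ) - (piT i.1 i.2 t K + piT i.1 i.2 (-t) K) / 2|})
    (s := 1 - min c (1 / 2)) (by linarith [min_le_right c (1 / 2)])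
    (fun i => ⟨M, hM (fun D K => ∃ t : ℤ, t ≠ 0 ∧ √((piT i.1 i.2 t K : ℝ) + piT i.1 i.2 (-t) K) * (K : ℝ) ^ ε <
          |(piT (i.1 * D ^ 2) (i.2 * D ^ 3) t K : ℝ) - (piT i.1 i.2 t K + piT i.1 i.2 (-t) K) / 2|)
      (fun N hN' => hN N hN' i.1 i.2)⟩)
    hv hτ hE hθ1
  refine ⟨E, hE1, fun α hα hαE A B => ?_⟩
  obtain ⟨n₀, hn⟩ := hE2 α hα hαE (A, B)
  refine ⟨n₀, fun n hn1 D hD0 hw x hx1 hx2 t ht => not_lt.1 fun hcon => hn n hn1 D hw ⟨hD0, x, hx1, ?_, t, ht, hcon⟩⟩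
  refine hx2.trans (Real.rpow_le_rpow_of_exponent_le ?_ (min_le_left _ _))
  have h1 : 1 ≤ |D| := Int.one_le_abs hD0
  exact_mod_cast h1

end Pool.Agent.Results.MP_d74fca_nt.TracesOfAllTwistsInWindows
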