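import Pool.Agent.Results.MP_d74fca_nt.TraceSigns
import Pool.Agent.V11326.WW
import Pool.Agent.V11312.PW.Classes

/-!
# Primes with a given Frobenius trace for ALL quadratic twists by integers near almost every `q`-adic point

For a curve `y² = x³ + A x + B` let `piT A B t x` be the number of the good primes `p ≤ x` (not dividing
`2 (4 A³ + 27 B²)`) with trace of Frobenius `t`. Let `q_1, …, q_r` be primes, `σ > 0`. For all points `α` of the product of the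
rings `ℤ_(q_l)` outside ONE set of Hausdorff dimension at most `(1 - c) / σ` (less than the dimension `r` of the space if
`r σ > 1 - c`), for ALL curves and all large `T`: for ALL quadratic twists `y² = x³ + A D² x + B D³` with `0 < |D| ≤ T` and
`|D - α_l| ≤ T ^ (-σ)` in `ℤ_(q_l)` for all `l` (for `r σ < 1` there are about `T ^ (1 - r σ)` such `D`), all `x` with
`(log |D|) ^ C ≤ x ≤ |D| ^ c` and all `t ≠ 0` the number for the twist is the mean of the numbers for the curve itself at `t`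
and `-t`, up to `√m x ^ ε`, where `m` is the number of the primes with trace `t` or `-t`.
-/

set_option autoImplicit false

namespace Pool.Agent.Results.MP_d74fca_nt.TwistsInResidueClasses

open Pool.Agent.W406.TW
open Pool.Agent.V11312.PW

/-- For all integers `D ≠ 0` near `α` the number of the primes up to `x` with trace `t` for the twist by `D` is half the number
`m` of the primes up to `x` at which `y² = x³ + A x + B` has trace `t` or `-t`, up to `√m x ^ ε`, in the displayed range. -/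
def LawNear (ε C c : ℝ) {r : ℕ} (q : Fin r → ℕ) [∀ l, Fact (q l).Prime] (σ : ℝ) (α : ∀ l, ℤ_[q l]) (A B : ℤ) : Prop :=
  ∃ T₀ : ℝ, ∀ T ≥ T₀, ∀ D : ℤ, D ≠ 0 → Near q σ T α D →
    ∀ x : ℕ, (Real.log |(D : ℝ)|) ^ C ≤ x → (x : ℝ) ≤ |(D : ℝ)| ^ c → ∀ t : ℤ, t ≠ 0 →
      |(piT (A * D ^ 2) (B * D ^ 3) t x : ℝ) - (piT A B t x + piT A B (-t) x) / 2| ≤
        √((piT A B t x : ℝ) + piT A B (-t) x) * (x : ℝ) ^ ε

/-- **Theorem.** (1) For every `ε > 0` there are `C` and `0 < c ≤ 1 / 2` such that for all primes `q_1, …, q_r` and `σ > 0`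
there is a set `E` of points of the product of the `ℤ_(q_l)` of Hausdorff dimension at most `(1 - c) / σ` such that for all
`α ∉ E`, ALL integers `A`, `B` and all large `T`, for ALL integers `D ≠ 0`, `|D| ≤ T`, with `|D - α_l| ≤ T ^ (-σ)` for all `l`,
all `x` with `(log |D|) ^ C ≤ x ≤ |D| ^ c` and all `t ≠ 0` the number of the primes up to `x` with trace `t` for the twist
`y² = x³ + A D² x + B D³` is half the number `m` of the primes up to `x` at which `y² = x³ + A x + B` has trace `t` or `-t`,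
up to an error of at most `√m x ^ ε`.
(2) For `r ≥ 1` there are countably many sets of dimension less than `r` such that for all `α` outside of them and all
`ε = 1 / (j + 1)` this holds with some `C`, `c > 0` and some `σ` with `r σ < 1`. -/
theorem result :
    (∀ ε : ℝ, 0 < ε → ∃ C c : ℝ, 0 < C ∧ 0 < c ∧ c ≤ 1 / 2 ∧
      ∀ (r : ℕ) (q : Fin r → ℕ) [∀ l, Fact (q l).Prime] (σ : ℝ), 0 < σ →
      ∃ E : Set (∀ l, ℤ_[q l]), dimH E ≤ ENNReal.ofReal ((1 - c) / σ) ∧ ∀ α ∉ E, ∀ A B : ℤ,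
        LawNear ε C c q σ α A B) ∧
    (∀ (r : ℕ) (q : Fin r → ℕ) [∀ l, Fact (q l).Prime], 1 ≤ r →
      ∃ E : ℕ → Set (∀ l, ℤ_[q l]), (∀ j, dimH (E j) < r) ∧ ∀ α : (∀ l, ℤ_[q l]), (∀ j, α ∉ E j) →
        ∀ j : ℕ, ∃ C c σ : ℝ, 0 < C ∧ 0 < c ∧ 0 < σ ∧ r * σ < 1 ∧ ∀ A B : ℤ,
          LawNear (1 / ((j : ℝ) + 1)) C c q σ α A B) := by
  have main : ∀ ε : ℝ, 0 < ε → ∃ C c : ℝ, 0 < C ∧ 0 < c ∧ c ≤ 1 / 2 ∧
      ∀ (r : ℕ) (q : Fin r → ℕ) [∀ l, Fact (q l).Prime] (σ : ℝ), 0 < σ →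
      ∃ E : Set (∀ l, ℤ_[q l]), dimH E ≤ ENNReal.ofReal ((1 - c) / σ) ∧ ∀ α ∉ E, ∀ A B : ℤ,
        LawNear ε C c q σ α A B := by
    intro ε hε
    obtain ⟨C, c, hC, hc, N₀, hN⟩ := Pool.Agent.Results.MP_d74fca_nt.TraceSigns.result ε hε
    refine ⟨C + 1, min c (1 / 2), by linarith, lt_min hc (by norm_num), min_le_right _ _, fun r q _ σ hσ => ?_⟩
    obtain ⟨M, hM⟩ := Pool.Agent.V11326.WW.twist_count hC hc N₀
    obtain ⟨E, hE1, hE2⟩ := int_classes (ι := ℤ × ℤ)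
      (fun i => {D : ℤ | D ≠ 0 ∧ ∃ K : ℕ, (Real.log |(D : ℝ)|) ^ (C + 1) ≤ K ∧ (K : ℝ) ≤ |(D : ℝ)| ^ c ∧
        ∃ t : ℤ, t ≠ 0 ∧ √((piT i.1 i.2 t K : ℝ) + piT i.1 i.2 (-t) K) * (K : ℝ) ^ ε <
            |(piT (i.1 * D ^ 2) (i.2 * D ^ 3) t K : ℝ) - (piT i.1 i.2 t K + piT i.1 i.2 (-t) K) / 2|})
      (s := 1 - min c (1 / 2)) (by linarith [min_le_right c (1 / 2)])
      (fun i => ⟨M, hM (fun D K => ∃ t : ℤ, t ≠ 0 ∧ √((piT i.1 i.2 t K : ℝ) + piT i.1 i.2 (-t) K) * (K : ℝ) ^ ε <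
            |(piT (i.1 * D ^ 2) (i.2 * D ^ 3) t K : ℝ) - (piT i.1 i.2 t K + piT i.1 i.2 (-t) K) / 2|)
        (fun N hN' => hN N hN' i.1 i.2)⟩)
      q hσ
    refine ⟨E, hE1, fun α hα A B => ?_⟩
    obtain ⟨T₀, hT⟩ := hE2 α hα (A, B)
    refine ⟨T₀, fun T hTT D hD0 hw x hx1 hx2 t ht => not_lt.1 fun hcon => hT T hTT D hw ⟨hD0, x, hx1, ?_, t, ht, hcon⟩⟩
    refine hx2.trans (Real.rpow_le_rpow_of_exponent_le ?_ (min_le_left _ _))
    have h1 : 1 ≤ |D| := Int.one_le_abs hD0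
    exact_mod_cast h1
  refine ⟨main, fun r q _ hr => ?_⟩
  choose C c hC hc hc2 h using fun j : ℕ => main (1 / ((j : ℝ) + 1)) (by positivity)
  obtain ⟨E, hE1, hE2⟩ := small hr q
    (fun (j : ℕ) σ α => ∀ A B : ℤ, LawNear (1 / ((j : ℝ) + 1)) (C j) (c j) q σ α A B)
    (fun j => ⟨c j, hc j, hc2 j, fun σ hσ => h j r q σ hσ⟩)
  refine ⟨E, hE1, fun α hα j => ?_⟩
  obtain ⟨σ, h1, h2, h3⟩ := hE2 α hα j
  exact ⟨C j, c j, σ, hC j, hc j, h1, h2, h3⟩

end Pool.Agent.Results.MP_d74fca_nt.TwistsInResidueClasses
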